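import Pool.Agent.H934.PA.Hyper

/-!
# Homological and numerical equivalence for liftable varieties over finite fields with at most two
# unexplained classes of Tate type on each piece

Clozel proved that for an abelian variety over a finite field the `ℓ`-adic homological equivalence and
the numerical equivalence coincide for the prime numbers `ℓ` in a set of positive density. This file
proves the same conclusion for a class of varieties whose cohomology is not related to abelian
varieties.

Let `X` be a smooth projective variety over the algebraic closure of a finite field, with an ample
divisor `D` and a Frobenius endomorphism `f`, such that `(X, D)` lifts to characteristic zero. Suppose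
that the primitive cohomology of every degree `2 j` is the orthogonal direct sum of pieces which are cut
out by algebraic correspondences and which lift to characteristic zero (for example there is only one
piece). Let `mult` be the multiplicity of the Frobenius eigenvalue `q ^ j` on a piece.

**Theorem.** If on every piece there are `mult - 2` orthogonal algebraic classes with the signs predicted
by the Hodge-Riemann relations (no condition if `mult ≤ 2`; for `mult > 2` it is enough that this many
classes lift to characteristic zero), and if the conjecture `A` holds for `(X, D)` or the cohomology of
`X` outside the middle degree is spanned by powers of `D` (`IsHypersurfaceLike`: all hypersurfaces and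
complete intersections, no unproved hypothesis remains for them), then there is `M > 0`
such that for all prime numbers `ℓ ≠ p` with `ℓ ≡ -1` modulo `4 M` the homological equivalence for the
`ℓ`-adic cohomology and the numerical equivalence coincide for the cycles on `X` of all codimensions.
By Dirichlet's theorem, this is a set of prime numbers of positive density. Neither the Tate conjecture
nor the semisimplicity of the Frobenius endomorphism is assumed.

Method. Suppose that a primitive algebraic class `y ≠ 0` on a piece is numerically trivial. It is an
eigenvector of the Frobenius, isotropic and orthogonal to the given classes `z₁, …, z_s`. If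
`mult ≤ s + 1` then the form is degenerate on the piece, a contradiction. If `mult = s + 2` then the
generalized eigenspace of the Frobenius is the orthogonal sum of the lines of the `z_i` and of a
hyperbolic plane, and its discriminant is minus the product of the `z_i ^ 2`. By the formula of
Zassenhaus for the discriminant of a space with an isometry without eigenvalues `± 1` (`disc_sub`,
`disc_isotropic`), the number `- N` is a square in `ℚ_ℓ`, where `N` is the product of the discriminant
of the piece, of the `z_i ^ 2`, and of the values of the other factor of the characteristic polynomial at
`± q ^ j`. This rational number `N` does not depend on `ℓ` (the classes `z_i` are transported between the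
prime numbers by the conjecture `A`, up to numerical equivalence), and it is positive, by the
Hodge-Riemann relations on the lifting and the signs of the `z_i ^ 2`. Hence `- N` is not a square in
`ℚ_ℓ` for all `ℓ ≡ -1` modulo `4 M`, for suitable `M` (`exists_modulus`). Finally the conjecture `A`
reduces the assertion to primitive classes of degree at most the dimension (`homEqNum_of_prim`).
-/

set_option autoImplicit false

open CategoryTheory AlgebraicGeometry

universe u v

namespace Pool.Agent.Results.MP_5f0950_ag.AtMostTwoTateClasses

open Pool.Agent.H914 Pool.Agent.H934.Lift VarClass Obj WeilCohomology

/-- **Homological and numerical equivalence coincide on a liftable variety over a finite field for all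
prime numbers `ℓ` in an arithmetic progression, if on each piece of the primitive cohomology all but at
most two of the Frobenius eigenvalues of Tate type are explained by algebraic classes with the right
signs.** -/
theorem result {k : Type u} [Field k] {𝒱 : VarClass k} {ops : CycleOps 𝒱} {p : ℕ}
    (S : LadicSystem.{u, v} ops p) {X : 𝒱.Obj} {D : X.Cycles} (hD : X.IsCyc 1 D) {f : X ⟶ X}
    {q : ℕ} (hq : 0 < q)
    (hX : ∀ l : Nat.Primes, (l : ℕ) ≠ p → IsFrobenius (S.W l) X D f q ∧
      (IsHypersurfaceLike (S.W l) X D ∨ LefschetzA (S.W l) X D))
    (Sp : ∀ j, 2 * j ≤ X.dim → Splitting S X D f q j) (l₀ : Nat.Primes) (hl₀ : (l₀ : ℕ) ≠ p)
    (hP : ∀ j hj i,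
      HasPositive (S.W l₀) X D j ((Sp j hj).piece i).corr (((Sp j hj).piece i).mult - 1)) :
    ∃ M : ℕ, 0 < M ∧ ∀ l : Nat.Primes, (l : ℕ) ≠ p → (l : ℕ) % (4 * M) = 4 * M - 1 →
      HomEqNum (S.W l) X :=
  exists_modulus_homEqNum hD hq (fun l hl => ⟨(hX l hl).1, lefschetzA_of_or hD (hX l hl).2⟩) Sp l₀ hl₀ hP

end Pool.Agent.Results.MP_5f0950_ag.AtMostTwoTateClasses
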