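import Pool.Agent.H621.FX.Twr

/-!
# Numerical and homological equivalence on the products of an arbitrary variety with varieties with
# big monodromy: the number of the exceptions is bounded by the Betti numbers

Let `k` be a finitely generated field with Galois group `Γ`, and let `Z` be **any** smooth projective
variety over `k`, with Betti numbers `b_j`. Nothing is assumed about `Z`. Let `X_i`, `i ∈ J`, be a
finite or infinite family of varieties which satisfy the conjecture D and have big monodromy `T_i`: the
transcendental cohomology `T_i` of `X_i` (the orthogonal complement of all algebraic classes) is in the
middle degree, and the Lie algebra of the symplectic or orthogonal group of `T_i` is an irreducible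
representation of `Γ` and not commutative. The `X_i` are not related to each other: for every finite
part of the family there is an element of `Γ` (a Frobenius element) whose eigenvalues on the `T_i`
satisfy only the multiplicative relations given by the forms (`HasGenericElement`).

**Theorem.** There is a finite set `S` of exceptional members of the family, of total rank

`∑_{i ∈ S} ⌊dim T_i / 2⌋ ≤ ∑_{j ≤ dim Z} ⌊b_j / 2⌋`,

such that for all `s` and all products `Y = X_1^(n_1) × ⋯ × X_m^(n_m) × Z^s` of powers of members of
the family which do not belong to `S` (with `n_i < dim T_i` if `dim X_i` is even):

numerical and homological equivalence coincide on `Y`, in all codimensions, **if and only if** they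
coincide on `Z^s`.

More generally one can replace `Z^s` by any variety whose cohomology is generated by the cohomology of
`Z` and by finitely many other members of the family, exceptional or not; so for all products of
powers of `Z` and of the `X_i` the conjecture D is reduced to the products of powers of `Z` and of
the exceptional members. The set `S` is given explicitly: `X_i` is exceptional if for **all** elements
`g` of `Γ` the (normalised) eigenvalues of `g` on `T_i` are, up to roots of unity, in the group
generated by the normalised eigenvalues of `g` on the cohomology of `Z` (`IsExceptional`).

The conjecture D is not known to be stable under products. It is known for products if the factors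
satisfy the conjecture of Lefschetz type and the one of Hodge type; neither is assumed for `Z` or the
`X_i`.

## Examples

* In characteristic zero the conjecture D is known for `dim Z ≤ 4` (Lieberman). So it holds for
  all products `Z × X_1^(n_1) × ⋯ × X_m^(n_m)` of **arbitrary** varieties `Z` of dimension at most four
  over a finitely generated field of characteristic zero and of powers of the `X_i`, `i ∉ S`, for
  instance of hypersurfaces `X_i` of any dimension. In positive characteristic the same holds for
  arbitrary surfaces `Z` (Matsusaka).
* `X_i` curves of genus `g_i ≥ 1`, such that the image of `Γ` in the group of symplectic similitudes of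
  `T_i = H^1(X_i)` is open, whose Jacobians are pairwise not isogenous (in positive characteristic: over
  a function field, with big geometric monodromy); hypersurfaces or complete intersections with big
  monodromy. The generic elements exist by the theory of Frobenius tori of Serre.
* `Z` a point: the conjecture D for all products of powers of the `X_i`.

## The formal statement

`W` is a Weil cohomology theory with algebraically closed coefficients (étale cohomology with
coefficients in the closure of `ℚ_ℓ`) on a class of smooth proper varieties, with an action of `Γ` on
the cohomology of the varieties under consideration. `PRep` is a representation with a nondegenerate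
symmetric or alternating form which is multiplied by scalars. The `G_j`, `j ∈ N`, are finitely many
such representations, for instance `G_j = H^j(Z)`, `j ≤ dim Z`, with the forms given by the hard
Lefschetz theorem. `GeneratedBy G Z` says that the cohomology of `Z` is generated by the `G_j`: for
every class `x ≠ 0` there is a linear map from the cohomology to multilinear forms on the `G_j`,
equivariant up to scalars for a subgroup of finite index, which does not kill `x`; this is so for all
powers of `Z`. `Tower X T Z U Y` says that `Y` is the product of `Z` and of powers of the `X_i`,
`i ∈ U`. The semisimplicity of the Galois representations is not assumed.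

## Proof

The exceptional set and the bound for it are those of the file `BoundedExceptions` of the problem
`MP_0fca13_ag` (Tate conjecture); a member `X_i` which is not exceptional is independent of `Z`: the
Lie algebra of its monodromy kills all equivariant maps between tensor powers of `T_i` and the
cohomology of the other factors. By the library `H802T` the classes of cycles on the product are
combinations of products of classes on the two factors with algebraic coefficients in the part of
`X_i`, and the conjecture D passes from one factor to the product, with the positivity which comes
from the invariant theory of the monodromy group.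
-/

universe u

namespace Pool.Agent.Results.MP_5f0950_ag.BoundedExceptions

open Pool.Agent.H914 Pool.Agent.H281R3.HT Pool.Agent.TH125.Gal Pool.Agent.H802T

section rep

variable {K : Type} [Field K] {Γ : Type} [Group Γ]

/-- `x` is a normalised eigenvalue of `g` on the representation `P`: `x = b ^ 2 / c`, where `b` is an
eigenvalue of `g` and `c` is the factor by which `g` multiplies the form. -/
def IsNormalisedEigenvalue (P : PRep K Γ) (g : Γ) (x : Kˣ) : Prop :=
  ∃ b c : Kˣ, (c : K) = P.mult g ∧ (∃ v : P.V, v ≠ 0 ∧ opr P.ρ g v = (b : K) • v) ∧
    x = b ^ 2 / c

/-- The representation `P` is exceptional for the family `G`: for all elements `g` all normalised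
eigenvalues of `g` on `P` have a power in the group generated by the normalised eigenvalues of `g` on
the `G j`. -/
def IsExceptional {N : Type} (G : N → PRep K Γ) (P : PRep K Γ) : Prop :=
  ∀ (g : Γ) (x : Kˣ), IsNormalisedEigenvalue P g x →
    ∃ n : ℕ, 0 < n ∧ x ^ n ∈ Subgroup.closure {y | ∃ j, IsNormalisedEigenvalue (G j) g y}

/-- Some element `g` has `∑ i, ⌊dim (T i) / 2⌋` multiplicatively independent normalised eigenvalues,
`⌊dim (T i) / 2⌋` of them on `T i`. (There are no more, as the inverse of a normalised eigenvalue is a
normalised eigenvalue.) -/
def HasGenericElement {ι : Type} (T : ι → PRep K Γ) : Prop :=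
  ∃ (g : Γ) (x : (Σ i, Fin ((T i).dim / 2)) → Kˣ), (∀ q, IsNormalisedEigenvalue (T q.1) g (x q)) ∧
    LinearIndependent ℤ fun q => Additive.ofMul (x q)

end rep

variable {k : Type u} [Field k] {𝒱 : VarClass k} {ops : CycleOps 𝒱}
  {W : WeilCohomology.{u, 0} ops} {Γ : Type} [Group Γ]

/-- A finite or infinite family of varieties with big monodromy: `Γ` acts on the cohomology of the
varieties `X i` like a Galois group; numerical and homological equivalence coincide for them; their
transcendental cohomology `T i` is in the middle degree and has big monodromy; all finite subfamilies
have a generic element. -/
structure BigFamily (χ : Γ →* W.Kˣ) {J : Type} (X : J → GVar W Γ) (T : J → PRep W.K Γ) : Prop where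
  galois : ∀ i, IsGaloisAct χ (W.gr (X i).X) (X i).X.dim (W.tr (X i).X)
    (algClasses W (X i).X) (X i).act
  homEqNum : ∀ i, HomEqNum W (X i).X
  middle : ∀ i, Within (transcendental W (X i).X) (W.gr (X i).X (X i).X.dim)
  trans : ∀ i, IsTrans (X i) (T i)
  big : ∀ i, Big (T i).ρ (T i).form
  generic : ∀ A : Finset J, HasGenericElement fun i : A => T i

/-- **The conjecture D for products: the exceptions are bounded by the Betti numbers.** -/
theorem result [IsAlgClosed W.K] (χ : Γ →* W.Kˣ) {J N : Type} [Fintype N] (X : J → GVar W Γ)
    (T : J → PRep W.K Γ) (hX : BigFamily χ X T) (G : N → PRep W.K Γ) :
    ∃ S : Finset J, (∀ i, i ∈ S ↔ IsExceptional G (T i)) ∧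
      ∑ i ∈ S, (T i).dim / 2 ≤ ∑ j, (G j).dim / 2 ∧
      ∀ (B : Finset J) (Z : GVar W Γ), GeneratedBy (Sum.elim (fun i : B => T i) G) Z →
        (∀ U Y, Tower X T Z U Y → IsGaloisAct χ (W.gr Y.X) Y.X.dim (W.tr Y.X) (algClasses W Y.X)
          Y.act) →
        ∀ (U : Set J) (Y : GVar W Γ), Tower X T Z U Y → (∀ i ∈ U, i ∉ B ∧ i ∉ S) →
          (HomEqNum W Y.X ↔ HomEqNum W Z.X) := by
  have h : Pool.Agent.H621.FX.Mem χ X T :=
    ⟨hX.galois, hX.homEqNum, hX.middle, hX.trans, hX.big, hX.generic⟩
  obtain ⟨S, h1, h2⟩ := Pool.Agent.H621.FX.exists_exc h G
  refine ⟨S, h2, h1, fun B Z hZ hgal U Y hY hU => ?_⟩
  exact Pool.Agent.H621.FX.homEqNum_tower h hZ hgal hY fun i hi =>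
    ⟨(hU i hi).1, fun he => (hU i hi).2 ((h2 i).2 he)⟩

end Pool.Agent.Results.MP_5f0950_ag.BoundedExceptions
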