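import Mathlib
import Pool.Agent.H194R3.Tate.Num
import Pool.Agent.Helper33_dom.Field

/-!
# Standard conjecture D for abelian varieties over finite fields, dominating slopes

Let `q = p ^ a`, and let `π i` be finitely many Weil `q`-numbers which generate CM fields `K i`.
Each of them is of dominant type (the new case), of pair type or of flip type, and embeddings of
`K i` and `K j`, for different `i` and `j`, are cross flipped: some automorphism of the complex
numbers fixes one and conjugates the other.

Dominant type: let `w τ = 2 v (τ (π i)) - a` be the normalised valuations, `τ` running through the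
embeddings of `K i` in the algebraic closure of the `p`-adic numbers. There is `τ₀` with `w τ₀ ≠ 0`
such that the sum of all `|w τ|` is less than `4 |w τ₀|`; or it is equal to `4 |w τ₀|` and `π i` is
not of norm type: there is no subfield `E` of `K i`, different from `K i` and not totally real, such
that for every embedding of `E` the sum of the `w τ` over its extensions `τ` to `K i` is zero.
There is no condition on the Galois group or the degree of `K i`.

Let `A` be any abelian variety over an algebraic closure of the field with `q` elements which is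
isogenous to a product of powers of the simple abelian varieties given by the `π i`. Then
homological and numerical equivalence coincide for cycles on `A` in all codimensions, and for
EVERY Weil cohomology.  More precisely: `V` is the first cohomology of `A`, with coefficients
extended to an algebraically closed field, `F` the Frobenius endomorphism (for the field with `q`
elements), so that the cohomology of `A` is the exterior algebra on `V`, and `F` acts on the top
degree `2 g` by `q ^ g`.  A cycle of codimension `j` on `A` is defined over the extension of degree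
`s` for some `s > 0`, so its class `x` satisfies `F ^ s x = q ^ (j s) x`.  The theorem says: if `x`
is orthogonal to all products of `g - j` classes `y` of degree two with `F y = q y` (these are
spanned by classes of divisors, by the theorem of Tate, for every Weil cohomology), then `x = 0`.
-/

set_option autoImplicit false

namespace Pool.Agent.Results.MP_5f0950_ag.DominantFrobeniusD

open Module NumberField Pool.Agent.H194R3.CM Pool.Agent.H194R3.Tate Pool.Agent.Helper33Dom

/-- A class `x` of degree `2 j` which is a Tate class over the extension of degree `s`, and whose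
products with all products of `g - j` Tate classes of degree two (over the base field) are zero,
is zero. -/
theorem result (p : ℕ) [Fact p.Prime] (a : ℕ) {I : Type} [Finite I] (K : I → Type)
    [∀ i, Field (K i)] [∀ i, NumberField (K i)] [∀ i, IsCMField (K i)]
    (π : ∀ i, K i) (hgen : ∀ i, IntermediateField.adjoin ℚ {π i} = ⊤)
    (hweil : ∀ i, ∀ φ : K i →+* ℂ, ‖φ (π i)‖ ^ 2 = (p : ℝ) ^ a)
    (hπ : ∀ i, DominantType p a (π i) ∨ PairType p a (π i) ∨ FlipType p a (π i))
    (hcross : ∀ i j, i ≠ j → ∀ (φ : K i →+* ℂ) (ψ : K j →+* ℂ), CrossFlipped φ ψ)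
    {Ω : Type*} [Field Ω] [IsAlgClosed Ω] [CharZero Ω]
    {V : Type*} [AddCommGroup V] [Module Ω V] [FiniteDimensional Ω V] (F : V →ₗ[Ω] V)
    (hF : Submodule.span Ω {v : V | ∃ i, ∃ σ : K i →+* Ω, F v = σ (π i) • v} = ⊤)
    (g : ℕ) (hdim : finrank Ω V = 2 * g) (hdet : LinearMap.det F = ((p : Ω) ^ a) ^ g)
    (j s : ℕ) (hj : j ≤ g) (hs : 0 < s) (x : ExteriorAlgebra Ω V) (hx : x ∈ ⋀[Ω]^(2 * j) V)
    (hFx : ExteriorAlgebra.map (F ^ s) x = (((p : Ω) ^ a) ^ j) ^ s • x)
    (hnum : ∀ y : Fin (g - j) → ExteriorAlgebra Ω V,
      (∀ l, y l ∈ ⋀[Ω]^2 V ∧ ExteriorAlgebra.map F (y l) = (p : Ω) ^ a • y l) →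
        x * (List.ofFn y).prod = 0) : x = 0 := by
  have hp0 : (p : Ω) ≠ 0 := by exact_mod_cast (Fact.out : p.Prime).ne_zero
  have hq : (0 : ℚ) < (p : ℚ) ^ a := pow_pos (by exact_mod_cast (Fact.out : p.Prime).pos) _
  have hcast : (((p : ℚ) ^ a : ℚ) : Ω) = (p : Ω) ^ a := by
    push_cast
    rfl
  have hweil' : ∀ i, ∀ φ : K i →+* ℂ, ‖φ (π i)‖ ^ 2 = (((p : ℚ) ^ a : ℚ) : ℝ) := by
    intro i φ
    rw [hweil i φ]
    push_cast
    rfl
  refine eq_zero_of_numerical F
    {μ : Ω | ∃ i, ∃ σ : K i →+* Ω, σ (π i) = μ} ?_ ((p : Ω) ^ a) (pow_ne_zero _ hp0) g hdim hdet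
    j hj s (fun y hy hFy => ?_) x hx hFx hnum
  · rw [← hF]
    congr 1
    ext v
    constructor
    · rintro ⟨μ, ⟨i, σ, rfl⟩, h⟩
      exact ⟨i, σ, h⟩
    · rintro ⟨i, σ, h⟩
      exact ⟨_, ⟨i, σ, rfl⟩, h⟩
  · rw [← hcast] at hFy ⊢
    exact ext_of_norel p ((p : ℚ) ^ a) hq π hgen hweil'
      (fun _ => norel_of_family p (fun _ => a) π hweil' hπ hcross)
      F hF (g - j) s hs y hy hFy

end Pool.Agent.Results.MP_5f0950_ag.DominantFrobeniusD
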