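import Pool.Agent.Helper786_Inv.FrobPart

/-!
# The standard conjecture D for powers of varieties over finite fields, and the relations between the
eigenvalues of Frobenius

Let `X` be a smooth proper variety of dimension `n` over a finite field with `q` elements, `H` the
`ℓ`-adic cohomology of varieties over the algebraic closure `k`, with coefficients in `K = ℚ_ℓ` (or any
other Weil cohomology), and `F` the Frobenius endomorphism. Let `T(X)` be the transcendental cohomology,
the space of the classes orthogonal to all classes of algebraic cycles on `X`, and `T_w(X)` its part in
the degrees of the parity of `w`. Let `𝒴` be a set of varieties such that homological and numerical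
equivalence coincide on all products of members of `𝒴`. We assume:

* homological and numerical equivalence coincide on `X`;
* the part of `T(X)` of the other parity is zero or comes from products of members of `𝒴`
  (`OtherPartFrom`: the projection onto it is a combination of compositions of algebraic
  correspondences through such products);
* the characteristic polynomial `χ` of `F` on `T_w(X)` is squarefree.

For instance `X` is **any surface**, `w = 0` and `𝒴` contains the Albanese variety of `X` (or a point, if
`b_1 = 0`); or a complete intersection, a cubic fourfold, a Calabi-Yau threefold with algebraic `H^2`
(`w = 1`), always with squarefree `χ`. The Tate conjecture is not assumed.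

**Theorem.** Assume that every family of exponents `m_π ≥ 0`, `π` a root of `χ`, which is invariant under
the Galois group of `K` (for `K = ℚ_ℓ`: constant on the orbits of a decomposition group at `ℓ`), and for
which `∏ π ^ m_π` is a power of `q` multiplied by an eigenvalue of Frobenius on the cohomology of a
product of members of `𝒴`, up to roots of unity, is *balanced*, that is `m_(q ^ n / π) = m_π`. Then
homological and numerical equivalence coincide, in all codimensions, on all varieties `V` dominated by
products of copies of `X` and of members of `𝒴`, and the standard conjecture of Lefschetz type `B` holds
for `V`.

In this form the theorem can be iterated. If `𝒴` consists of a point then the condition is: `∏ π ^ m_π`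
is a rational power of `q` up to a root of unity only for balanced families of exponents. So all that is
needed is that there is no nontrivial multiplicative relation between the eigenvalues *which is
invariant under the Galois group of `ℚ_ℓ`* (the relations `π π' = q ^ n` are the trivial ones).
Special cases:

* If a complex conjugation belongs to the decomposition group at `ℓ` (a set of primes `ℓ` of positive
  density), there is no condition on the relations: invariant exponents are balanced. For abelian
  varieties this is the theorem of Clozel (1999). (This case is contained in the starting library, as
  the transcendental cohomology then has no isotropic subspaces stable under Frobenius.)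
* If there is no nontrivial relation at all, the theorem holds for all `ℓ`.
* In general let `R` be the space of the relations modulo the balanced ones. It is a representation of
  the Galois group `G` of `χ`, on which the complex conjugation acts by `-1`, and the theorem applies
  to all primes `ℓ` for which a decomposition group has no nonzero invariants in `R`. If `R` is
  one-dimensional, `G` acts on it by the character of an imaginary quadratic field `k'`, and the
  theorem applies to all `ℓ` which are not split in `k'`.

*The hypotheses in Lean.* `W` is a Weil cohomology theory with coefficient field `W.K` of
characteristic zero on a class of smooth proper varieties closed under products (varieties with a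
model over the finite field), `S` is the family of the Frobenius automorphisms of the cohomology
algebras (`IsFrobeniusElement`: it multiplies the orientation by `q ^ dim`, and each class of a cycle
of codimension `j` by `q ^ j`, up to a finite extension); on `X` it is the pull-back by an
endomorphism `F` of `X`. `IsSquarefreePolyOn` says that `χ` is squarefree and is the minimal
polynomial of Frobenius on `T_w(X)`, and that its degree is the dimension of `T_w(X)`.

*Proof.* The blocks `T_P` of `T_w(X)` for the irreducible factors `P` of `χ` over `K` are cut out by
polynomials in `F`, thus by algebraic correspondences, and they are irreducible under `F`; the cup
product pairs `T_P` with the block of the reciprocal factor. Suppose that some numerically trivial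
cycle on a product has a nonzero class. The multilinear forms on `T_w(X)` given by such cycles are then
a nonzero family without constants, closed under products, permutations, contraction with the cup
product and multiplication with it. From the theorem of Kempf on optimal one-parameter subgroups one
obtains (`exists_vol`, which uses `ComponentWeights` of the starting library) that it contains a
product of volume forms of the blocks, with unbalanced exponents; hence the product of the
determinants of Frobenius on these blocks is a power of `q` times an eigenvalue on the other factors.
The determinants are the products of the roots of the factors `P`.
-/

set_option autoImplicit false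

open CategoryTheory

universe u v

namespace Pool.Agent.Results.MP_5f0950_ag.FrobeniusRelations

open Pool.Agent.H914 Pool.Agent.H914.VarClass Pool.Agent.H914.VarClass.Obj Pool.Agent.R908
  Pool.Agent.Helper786.Det Pool.Agent.Helper786.Part

/-- **The conjectures D and B for all varieties dominated by products of copies of `X` and of members of
`𝒴`, if all multiplicative relations between the eigenvalues of Frobenius on the part of parity `w` of
the transcendental cohomology which are invariant under the Galois group of the coefficient field are
balanced.** -/
theorem result {k : Type u} [Field k] {𝒱 : VarClass k} {ops : CycleOps 𝒱}
    (W : WeilCohomology.{u, v} ops) (S : Symmetry W) (q : ℕ) (hS : IsFrobeniusElement S q)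
    (X : 𝒱.Obj) (F : X ⟶ X) (hF : ∀ x, W.map F x = S.σ X x) (hD : HomEqNum W X)
    (𝒴 : Set 𝒱.Obj) (hY : ∀ Y, IsProductOf 𝒴 Y → HomEqNum W Y)
    (h1 : ∃ Y, IsProductOf 𝒴 Y ∧ (1 : W.H Y) ≠ 0) (w : ℕ) (hw : OtherPartFrom W 𝒴 X w)
    (χ : Polynomial W.K) (hχ : IsSquarefreePolyOn (transPart W X w) (S.σ X) χ)
    (hrel : ∀ m : AlgebraicClosure W.K → ℕ, GaloisInvariant m →
      (∃ Y, IsProductOf 𝒴 Y ∧ EigenUpToQ (S.σ Y) q (rootProd χ m)) →
        BalancedExponents χ (natPow W.K q X.dim) m)
    (Z : 𝒱.Obj) (hZ : IsProductOf ({X} ∪ 𝒴) Z) (V : 𝒱.Obj) (hV : Dominates W Z V) :
    HomEqNum W V ∧ ∀ D, V.IsCyc 1 D → HardLefschetz W V D → LefschetzB W V D :=
  dominated_of_products (fun _ hZ => homEqNum_frob_part hS hF hD hw hχ hY h1 hrel hZ) Z hZ V hV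

end Pool.Agent.Results.MP_5f0950_ag.FrobeniusRelations
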